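import Pool.Agent.LeoK.CountStmts

/-!
# Module ACT: identities for the action of matrices on cubic forms
-/

set_option autoImplicit false

namespace Pool.Agent.LeoK.H26

open Pool.Agent.LeoK

section
variable {A : Type} [CommRing A] (v : Q4 A) (x y z w : A)

theorem act_0 : act v x y z w 0 = cub (v 0) (v 1) (v 2) (v 3) x z := rfl
theorem act_1 : act v x y z w 1 = v 0 * x ^ 2 * y + v 1 * (x ^ 2 * w + 2 * x * y * z) +
    v 2 * (2 * x * z * w + y * z ^ 2) + v 3 * z ^ 2 * w := rfl
theorem act_2 : act v x y z w 2 = v 0 * x * y ^ 2 + v 1 * (2 * x * y * w + y ^ 2 * z) +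
    v 2 * (x * w ^ 2 + 2 * y * z * w) + v 3 * z * w ^ 2 := rfl
theorem act_3 : act v x y z w 3 = cub (v 0) (v 1) (v 2) (v 3) y w := rfl
end

theorem actStmt : ActStmt := by
  intro A _ v x y z w
  refine ⟨?_, ?_, ?_, ?_, ?_, ?_⟩
  · simp only [qM, fM, fP, fQ, fR, act_0, act_1, act_2, act_3, cub]
    ring
  · simp only [qP, hes, fP, fQ, fR, act_0, act_1, act_2, cub]
    ring
  · intro X Y
    simp only [val, act_0, act_1, act_2, act_3, cub]
    ring
  · intro X Y
    simp only [hes, fP, fQ, fR, act_0, act_1, act_2, act_3, cub]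
    ring
  · intro x' y' z' w'
    funext i
    fin_cases i
    · show cub _ _ _ _ x' z' = cub _ _ _ _ _ _
      simp only [act_0, act_1, act_2, act_3, cub]
      ring
    · show act (act v x y z w) x' y' z' w' 1 = act v _ _ _ _ 1
      simp only [act_0, act_1, act_2, act_3, cub]
      ring
    · show act (act v x y z w) x' y' z' w' 2 = act v _ _ _ _ 2
      simp only [act_0, act_1, act_2, act_3, cub]
      ring
    · show cub _ _ _ _ y' w' = cub _ _ _ _ _ _
      simp only [act_0, act_1, act_2, act_3, cub]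
      ring
  · simp only [qP, qM, hes, fM, fP, fQ, fR]
    ring

end Pool.Agent.LeoK.H26
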