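import Pool.Agent.LeoK.CountStmts
import Pool.Agent.Helper26_LeoK.Act

/-!
# Module NRF: normalisation of a form by a unit and a translation
-/

set_option autoImplicit false

namespace Pool.Agent.LeoK.H26

open Pool.Agent.LeoK NumberField Module

section
variable {k : Type} [Field k] [NumberField k]

theorem lam_sum {ι : Type} (s : Finset ι) (f : ι → 𝓞 k) :
    lam ((∑ i ∈ s, f i : 𝓞 k) : k) = ∑ i ∈ s, lam (f i : k) := by
  funext σ
  simp only [lam, Finset.sum_apply, map_sum]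

/-- every lattice vector is a vector of conjugates -/
theorem mem_span_B (Φ : Frame k) (y : Sg k → ℝ) :
    y ∈ Submodule.span ℤ (Set.range Φ.B) ↔ ∃ t : 𝓞 k, y = lam (t : k) := by
  constructor
  · intro hy
    obtain ⟨c, hc⟩ := (Submodule.mem_span_range_iff_exists_fun ℤ).1 hy
    refine ⟨∑ i, c i • Φ.om i, ?_⟩
    rw [← hc, lam_sum]
    refine Finset.sum_congr rfl fun i _ => ?_
    rw [Φ.hB i]
    funext σ
    simp [lam]
  · rintro ⟨t, rfl⟩
    rw [← Φ.om.sum_repr t, lam_sum]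
    refine Submodule.sum_mem _ fun i _ => ?_
    have h1 : lam ((Φ.om.repr t i • Φ.om i : 𝓞 k) : k) = Φ.om.repr t i • Φ.B i := by
      rw [Φ.hB i]
      funext σ
      simp [lam]
    rw [h1]
    exact Submodule.smul_mem _ _ (Submodule.subset_span ⟨i, rfl⟩)

/-- translation into the fundamental domain -/
theorem exists_translate (Φ : Frame k) (x : Sg k → ℝ) :
    ∃ t : 𝓞 k, x + lam (t : k) ∈ ZSpan.fundamentalDomain Φ.B := by
  obtain ⟨t, ht⟩ := (mem_span_B Φ _).1 (Submodule.neg_mem _ (ZSpan.floor Φ.B x).2)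
  refine ⟨t, ?_⟩
  rw [← ht, ← sub_eq_add_neg]
  exact ZSpan.fract_mem_fundamentalDomain Φ.B x

end

theorem prod_unit_sq {k : Type} [Field k] [NumberField k] (hNor : NorStmt)
    (hk : IsTotallyReal k) (η : (𝓞 k)ˣ) :
    ∏ s : Sg k, s ((η : 𝓞 k) : k) ^ 2 = 1 := by
  have h1 : ((η : 𝓞 k)) ≠ 0 := η.ne_zero
  obtain ⟨h2, h3⟩ := (hNor k hk).2.2 (η : 𝓞 k) h1
  have h4 : Ideal.span {(η : 𝓞 k)} = ⊤ := Ideal.span_singleton_eq_top.2 η.isUnit
  rw [h4, Ideal.absNorm_top] at h3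
  have h5 : ∏ s : Sg k, s ((η : 𝓞 k) : k) ^ 2 = (∏ s : Sg k, |s ((η : 𝓞 k) : k)|) ^ 2 := by
    rw [← Finset.prod_pow]
    refine Finset.prod_congr rfl fun s _ => ?_
    rw [sq_abs]
  rw [h5, h3]
  norm_num

/-- NRF. -/
theorem nrf (hNor : NorStmt) : NrfStmt := by
  intro k _ _ hk Φ v hv0 hP hM
  obtain ⟨η, hη⟩ := Φ.exi (fun s => s ((qP v : 𝓞 k) : k) / Real.sqrt (s ((qM v : 𝓞 k) : k)))
    fun s => div_pos (hP s) (Real.sqrt_pos.2 (hM s))
  set u : Q4 (𝓞 k) := act v (η : 𝓞 k) 0 0 ((η⁻¹ : (𝓞 k)ˣ) : 𝓞 k) with hu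
  obtain ⟨hu1, hu2, -, -, -, -⟩ := actStmt (𝓞 k) v (η : 𝓞 k) 0 0 ((η⁻¹ : (𝓞 k)ˣ) : 𝓞 k)
  have hdet : ((η : 𝓞 k) * ((η⁻¹ : (𝓞 k)ˣ) : 𝓞 k) - 0 * 0) = 1 := by
    rw [Units.mul_inv]
    ring
  rw [hdet, one_pow, one_mul] at hu1 hu2
  have hu0 : u 0 = v 0 * (η : 𝓞 k) ^ 3 := by
    rw [hu, act_0]
    simp only [cub]
    ring
  have hup : qP u = qP v * (η : 𝓞 k) ^ 2 := by
    rw [hu2]
    simp only [hes, qP]
    ring
  have hu0' : u 0 ≠ 0 := by
    rw [hu0]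
    exact mul_ne_zero hv0 (pow_ne_zero _ η.ne_zero)
  obtain ⟨t, ht⟩ := exists_translate Φ (fun s : Sg k => s (u 1 : k) / s (u 0 : k))
  obtain ⟨hw1, hw2, -, -, -, -⟩ := actStmt (𝓞 k) u 1 t 0 1
  have hdet2 : ((1 : 𝓞 k) * 1 - t * 0) = 1 := by ring
  rw [hdet2, one_pow, one_mul] at hw1 hw2
  have hwp : qP (act u 1 t 0 1) = qP u := by
    rw [hw2]
    simp only [hes, qP]
    ring
  have hw0 : act u 1 t 0 1 0 = u 0 := by
    rw [act_0]
    simp only [cub]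
    ring
  have hw11 : act u 1 t 0 1 1 = u 1 + t * u 0 := by
    rw [act_1]
    ring
  have hx : ∀ s : Sg k, s ((qP (act u 1 t 0 1) : 𝓞 k) : k) /
      Real.sqrt (s ((qM (act u 1 t 0 1) : 𝓞 k) : k)) = s ((η : 𝓞 k) : k) ^ 2 *
        (s ((qP v : 𝓞 k) : k) / Real.sqrt (s ((qM v : 𝓞 k) : k))) := by
    intro s
    rw [hwp, hw1, hu1, hup]
    simp only [map_mul, map_pow]
    ring
  refine ⟨act u 1 t 0 1, ?_, ?_, ?_, ?_, ?_⟩
  · rw [hw1, hu1]
  · rw [hw0]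
    exact hu0'
  · have h1 : (fun s : Sg k => s ((act u 1 t 0 1 1 : 𝓞 k) : k) /
        s ((act u 1 t 0 1 0 : 𝓞 k) : k)) =
        (fun s : Sg k => s (u 1 : k) / s (u 0 : k)) + lam (t : k) := by
      funext s
      have h2 : s (u 0 : k) ≠ 0 := by
        rw [map_ne_zero]
        exact_mod_cast hu0'
      rw [hw0, hw11, Pi.add_apply]
      simp only [map_add, map_mul, lam]
      field_simp
    rw [h1]
    exact ht
  · have h1 : (fun s : Sg k => s ((qP (act u 1 t 0 1) : 𝓞 k) : k) /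
        Real.sqrt (s ((qM (act u 1 t 0 1) : 𝓞 k) : k))) = lam ((η : 𝓞 k) : k) ^ 2 *
        (fun s => s ((qP v : 𝓞 k) : k) / Real.sqrt (s ((qM v : 𝓞 k) : k))) := by
      funext s
      rw [hx s]
      rfl
    rw [h1]
    exact hη
  · rw [Finset.prod_congr rfl fun s _ => hx s, Finset.prod_mul_distrib, prod_unit_sq hNor hk,
      one_mul]

end Pool.Agent.LeoK.H26
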