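import Pool.Agent.LeoK.CountStmts
import Pool.Agent.Helper26_LeoK.Nrf

/-!
# Module SMV: a short vector gives a form with small first Hessian coefficient
-/

set_option autoImplicit false

namespace Pool.Agent.LeoK.H26

open Pool.Agent.LeoK NumberField Module

/-- positivity of the Hessian -/
theorem hes_pos {k : Type} [Field k] (v : Q4 (𝓞 k)) (s : Sg k)
    (hP : 0 < s ((qP v : 𝓞 k) : k)) (hM : 0 < s ((qM v : 𝓞 k) : k)) (X Y : 𝓞 k)
    (hXY : X ≠ 0 ∨ Y ≠ 0) : 0 < s ((hes v X Y : 𝓞 k) : k) := by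
  have h1 := (actStmt (𝓞 k) v X 0 Y 0).2.2.2.2.2
  have h2 : 4 * s ((qP v : 𝓞 k) : k) * s ((hes v X Y : 𝓞 k) : k) =
      (2 * s ((qP v : 𝓞 k) : k) * s (X : k) +
        s ((fQ (v 0) (v 1) (v 2) (v 3) : 𝓞 k) : k) * s (Y : k)) ^ 2 +
        s ((qM v : 𝓞 k) : k) * s (Y : k) ^ 2 := by
    have h3 := congrArg (fun x : 𝓞 k => s (x : k)) h1
    simpa only [map_mul, map_add, map_pow, map_ofNat] using h3
  have h4 : 0 < (2 * s ((qP v : 𝓞 k) : k) * s (X : k) +
        s ((fQ (v 0) (v 1) (v 2) (v 3) : 𝓞 k) : k) * s (Y : k)) ^ 2 +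
        s ((qM v : 𝓞 k) : k) * s (Y : k) ^ 2 := by
    by_cases hY : Y = 0
    · have hX : X ≠ 0 := by
        rcases hXY with h | h
        · exact h
        · exact absurd hY h
      have hX' : s (X : k) ≠ 0 := by
        rw [map_ne_zero]
        exact_mod_cast hX
      rw [hY]
      have : (0 : ℝ) < (2 * s ((qP v : 𝓞 k) : k) * s (X : k)) ^ 2 := by positivity
      simpa using this
    · have hY' : s (Y : k) ≠ 0 := by
        rw [map_ne_zero]
        exact_mod_cast hY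
      positivity
  rw [← h2] at h4
  by_contra h5
  push Not at h5
  nlinarith

/-- SMV. -/
theorem smv (hRep : RepStmt) : SmvStmt := by
  intro k _ _ hk
  obtain ⟨N0, hN0, hrep⟩ := hRep k hk
  refine ⟨N0, (N0 : ℝ) ^ 2, hN0, by positivity, ?_⟩
  intro v X Y hirr hP hM hXY
  have hI : Ideal.span {X, Y} ≠ (⊥ : Ideal (𝓞 k)) := by
    intro h
    rw [Ideal.span_eq_bot] at h
    rcases hXY with h1 | h1
    · exact h1 (h X (by simp))
    · exact h1 (h Y (by simp))
  obtain ⟨r, α, β, hα, hβ, hN0r, hspan, hn1, -⟩ := hrep _ hI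
  -- X' and Y'
  have hX : ∃ X' ∈ r, β * X = α * X' := by
    have h1 : β * X ∈ Ideal.span {α} * r := by
      rw [← hspan]
      exact Ideal.mul_mem_mul (Ideal.mem_span_singleton_self β) (Ideal.subset_span (by simp))
    obtain ⟨X', hX', h2⟩ := Ideal.mem_span_singleton_mul.1 h1
    exact ⟨X', hX', h2.symm⟩
  have hY : ∃ Y' ∈ r, β * Y = α * Y' := by
    have h1 : β * Y ∈ Ideal.span {α} * r := by
      rw [← hspan]
      exact Ideal.mul_mem_mul (Ideal.mem_span_singleton_self β) (Ideal.subset_span (by simp))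
    obtain ⟨Y', hY', h2⟩ := Ideal.mem_span_singleton_mul.1 h1
    exact ⟨Y', hY', h2.symm⟩
  obtain ⟨X', hX'r, hX'⟩ := hX
  obtain ⟨Y', hY'r, hY'⟩ := hY
  have hXY' : X' ≠ 0 ∨ Y' ≠ 0 := by
    rcases hXY with h1 | h1
    · left
      rintro rfl
      rw [mul_zero] at hX'
      exact (mul_ne_zero hβ h1) hX'
    · right
      rintro rfl
      rw [mul_zero] at hY'
      exact (mul_ne_zero hβ h1) hY'
  -- N0 is a combination of X' and Y'
  have hcomb : ∃ a b : 𝓞 k, a * X' + b * Y' = (N0 : 𝓞 k) := by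
    have h1 : α * (N0 : 𝓞 k) ∈ Ideal.span {β} * Ideal.span {X, Y} := by
      rw [hspan]
      exact Ideal.mul_mem_mul (Ideal.mem_span_singleton_self α) hN0r
    obtain ⟨c, hc, h2⟩ := Ideal.mem_span_singleton_mul.1 h1
    obtain ⟨a, b, hab⟩ := Ideal.mem_span_pair.1 hc
    refine ⟨a, b, mul_left_cancel₀ hα ?_⟩
    rw [← h2, ← hab]
    linear_combination (-a) * hX' + (-b) * hY'
  obtain ⟨a, b, hab⟩ := hcomb
  obtain ⟨hw1, hw2, -, -, -, -⟩ := actStmt (𝓞 k) v X' (-b) Y' a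
  have hdet : X' * a - (-b) * Y' = (N0 : 𝓞 k) := by
    rw [← hab]
    ring
  rw [hdet] at hw1 hw2
  have hN0R : (0 : ℝ) < (N0 : ℝ) := by exact_mod_cast hN0
  refine ⟨act v X' (-b) Y' a, hw1, ?_, ?_, ?_⟩
  · rw [act_0]
    intro h
    obtain ⟨h1, h2⟩ := hirr X' Y' h
    rcases hXY' with h3 | h3
    · exact h3 h1
    · exact h3 h2
  · intro s
    rw [hw2]
    have h1 := hes_pos v s (hP s) (hM s) X' Y' hXY'
    have h2 : s (((N0 : 𝓞 k) ^ 2 * hes v X' Y' : 𝓞 k) : k) =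
        (N0 : ℝ) ^ 2 * s ((hes v X' Y' : 𝓞 k) : k) := by
      simp
    rw [h2]
    positivity
  · -- the size
    have hs : ∀ s : Sg k, s ((qP (act v X' (-b) Y' a) : 𝓞 k) : k) /
        Real.sqrt (s ((qM (act v X' (-b) Y' a) : 𝓞 k) : k)) =
        (N0 : ℝ)⁻¹ * ((|s (β : k)| / |s (α : k)|) ^ 2 * hx v X Y s) := by
      intro s
      have hα' : s (α : k) ≠ 0 := by
        rw [map_ne_zero]
        exact_mod_cast hα
      have h1 : s (((N0 : 𝓞 k) ^ 2 * hes v X' Y' : 𝓞 k) : k) =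
          (N0 : ℝ) ^ 2 * s ((hes v X' Y' : 𝓞 k) : k) := by
        simp
      have h2 : s (((N0 : 𝓞 k) ^ 6 * qM v : 𝓞 k) : k) =
          ((N0 : ℝ) ^ 3) ^ 2 * s ((qM v : 𝓞 k) : k) := by
        simp only [map_mul, map_pow, map_natCast]
        ring
      have h3 : α ^ 2 * hes v X' Y' = β ^ 2 * hes v X Y := by
        have e1 : α ^ 2 * hes v X' Y' = fP (v 0) (v 1) (v 2) * (α * X') ^ 2 +
            fQ (v 0) (v 1) (v 2) (v 3) * (α * X') * (α * Y') +
            fR (v 1) (v 2) (v 3) * (α * Y') ^ 2 := by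
          simp only [hes]
          ring
        rw [e1, ← hX', ← hY']
        simp only [hes]
        ring
      have h4 : s (α : k) ^ 2 * s ((hes v X' Y' : 𝓞 k) : k) =
          s (β : k) ^ 2 * s ((hes v X Y : 𝓞 k) : k) := by
        have h5 := congrArg (fun x : 𝓞 k => s (x : k)) h3
        simpa only [map_mul, map_pow] using h5
      rw [hw1, hw2, h1, h2, Real.sqrt_mul (by positivity), Real.sqrt_sq (by positivity)]
      have h6 : s ((hes v X' Y' : 𝓞 k) : k) =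
          (|s (β : k)| / |s (α : k)|) ^ 2 * s ((hes v X Y : 𝓞 k) : k) := by
        rw [div_pow, sq_abs, sq_abs]
        field_simp
        linarith [h4]
      rw [h6]
      have h7 : Real.sqrt (s ((qM v : 𝓞 k) : k)) ≠ 0 := (Real.sqrt_pos.2 (hM s)).ne'
      simp only [hx]
      field_simp
    rw [Finset.prod_congr rfl fun s _ => hs s, Finset.prod_mul_distrib, Finset.prod_mul_distrib,
      Finset.prod_pow, Finset.prod_div_distrib]
    have hpos : 0 ≤ ∏ s, hx v X Y s := Finset.prod_nonneg fun s _ =>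
      div_nonneg (hes_pos v s (hP s) (hM s) X Y hXY).le (Real.sqrt_nonneg _)
    have hN1 : ∏ _s : Sg k, (N0 : ℝ)⁻¹ ≤ 1 := by
      refine Finset.prod_le_one (fun _ _ => by positivity) fun _ _ => ?_
      exact inv_le_one_of_one_le₀ (by exact_mod_cast hN0)
    have hN1' : 0 ≤ ∏ _s : Sg k, (N0 : ℝ)⁻¹ := Finset.prod_nonneg fun _ _ => by positivity
    have hA : (0 : ℝ) < ∏ s : Sg k, |s (α : k)| := Finset.prod_pos fun s _ => by
      rw [abs_pos, map_ne_zero]
      exact_mod_cast hα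
    have hB : (0 : ℝ) ≤ ∏ s : Sg k, |s (β : k)| := Finset.prod_nonneg fun s _ => abs_nonneg _
    have hI1 : (1 : ℝ) ≤ (Ideal.absNorm (Ideal.span {X, Y} : Ideal (𝓞 k)) : ℝ) := by
      exact_mod_cast Nat.one_le_iff_ne_zero.2 fun h => hI (Ideal.absNorm_eq_zero_iff.1 h)
    have hq : (∏ s : Sg k, |s (β : k)|) / ∏ s : Sg k, |s (α : k)| ≤ N0 := by
      rw [div_le_iff₀ hA]
      nlinarith
    have hq0 : 0 ≤ (∏ s : Sg k, |s (β : k)|) / ∏ s : Sg k, |s (α : k)| := by positivity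
    calc (∏ _s : Sg k, (N0 : ℝ)⁻¹) * (((∏ s : Sg k, |s (β : k)|) / ∏ s : Sg k, |s (α : k)|) ^ 2 *
        ∏ s, hx v X Y s) ≤ 1 * (((∏ s : Sg k, |s (β : k)|) / ∏ s : Sg k, |s (α : k)|) ^ 2 *
        ∏ s, hx v X Y s) := by gcongr
      _ ≤ (N0 : ℝ) ^ 2 * ∏ s, hx v X Y s := by
        rw [one_mul]
        gcongr

end Pool.Agent.LeoK.H26
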